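import Pool.Agent.H189R2.Tau.Half

set_option autoImplicit false

namespace Pool.Agent.Results.MP_97f157_lc.OuterAverage

open Polynomial MeasureTheory Pool.Agent.H189R2.Tau
open scoped ENNReal NNReal

/-- Koiran's real tau-conjecture on average over the outer coefficients: the factors `f i j` are
arbitrary `t`-sparse real polynomials, only the coefficients `c i` of the `k` products are random. -/
theorem result (k m t : ℕ) (hm : 0 < m) (f : Fin k → Fin m → ℝ[X])
    (hf : ∀ i j, (f i j).support.card ≤ t) (hne : ∃ i, ∏ j, f i j ≠ 0)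
    (ν : Fin k → Measure ℝ) [∀ i, IsProbabilityMeasure (ν i)] (A B : ℝ≥0)
    (hA : ∀ i, ν i ≤ (A : ℝ≥0∞) • volume) (hB : ∀ i, ∫⁻ x, ENNReal.ofReal |x| ∂ν i ≤ B) :
    Measurable (fun c : Fin k → ℝ =>
      (({x : ℝ | (∑ i, C (c i) * ∏ j, f i j).eval x = 0}.encard : ℕ∞) : ℝ≥0∞)) ∧
    ∫⁻ c, (({x : ℝ | (∑ i, C (c i) * ∏ j, f i j).eval x = 0}.encard : ℕ∞) : ℝ≥0∞)
      ∂Measure.pi ν ≤ 288 * (1 + A * B) * k ^ 2 * m ^ 2 * t ^ 9 := by
  have hev : ∀ (c : Fin k → ℝ) (x : ℝ), (∑ i, C (c i) * ∏ j, f i j).eval x =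
      ∑ i, c i * ∏ j, (f i j).eval x := by
    intro c x
    simp [eval_finsetSum, eval_prod]
  have hset : ∀ c : Fin k → ℝ, {x : ℝ | (∑ i, C (c i) * ∏ j, f i j).eval x = 0} =
      Zs (fun i x => ∏ j, (f i j).eval x) c := by
    intro c
    ext x
    simp only [Zs, Set.mem_ofPred_eq, hev]
  have hne' : ∃ i, ∀ j, f i j ≠ 0 := by
    obtain ⟨i, hi⟩ := hne
    exact ⟨i, fun j => Finset.prod_ne_zero_iff.mp hi j (Finset.mem_univ j)⟩
  simp only [hset]
  refine ⟨measurable_encard (fun i => continuous_finsetProd _ (fun j _ => (f i j).continuous)), ?_⟩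
  have hpd : ∀ (ε : ℝ) (i : Fin k) (u : ℝ),
      pd (fun j => sp (f i j)) (fun j => cf ε (f i j)) u = ∏ j, (f i j).eval (ε * Real.exp u) := by
    intro ε i u
    unfold pd
    exact Finset.prod_congr rfl (fun j _ => es_sp ε (f i j) u)
  set N : ℝ → (Fin k → ℝ) → ℝ≥0∞ := fun ε c =>
    ((Zs (fun i u => pd (fun j => sp (f i j)) (fun j => cf ε (f i j)) u) c).encard : ℝ≥0∞) with hN
  have hNm : ∀ ε, Measurable (N ε) := fun ε => measurable_encard (fun i => continuous_pd _ _)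
  have hle : ∀ c, ((Zs (fun i x => ∏ j, (f i j).eval x) c).encard : ℝ≥0∞) ≤
      N 1 c + (N (-1) c + 1) := by
    intro c
    have hsub : Zs (fun i x => ∏ j, (f i j).eval x) c ⊆
        ((fun u => 1 * Real.exp u) ''
          Zs (fun i u => pd (fun j => sp (f i j)) (fun j => cf 1 (f i j)) u) c) ∪
        (((fun u => -1 * Real.exp u) ''
          Zs (fun i u => pd (fun j => sp (f i j)) (fun j => cf (-1) (f i j)) u) c) ∪ {0}) := by
      intro x hx
      simp only [Zs, Set.mem_ofPred_eq] at hx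
      rcases lt_trichotomy x 0 with h | h | h
      · right; left
        refine ⟨Real.log (-x), ?_, ?_⟩
        · simp only [Zs, Set.mem_ofPred_eq, hpd]
          rw [Real.exp_log (by linarith)]
          simpa using hx
        · simp only
          rw [Real.exp_log (by linarith)]
          ring
      · right; right
        exact h
      · left
        refine ⟨Real.log x, ?_, ?_⟩
        · simp only [Zs, Set.mem_ofPred_eq, hpd]
          rw [Real.exp_log h]
          simpa using hx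
        · simp only
          rw [Real.exp_log h, one_mul]
    have h1 : (Zs (fun i x => ∏ j, (f i j).eval x) c).encard ≤
        (Zs (fun i u => pd (fun j => sp (f i j)) (fun j => cf 1 (f i j)) u) c).encard +
        ((Zs (fun i u => pd (fun j => sp (f i j)) (fun j => cf (-1) (f i j)) u) c).encard + 1) := by
      refine (Set.encard_le_encard hsub).trans ?_
      refine (Set.encard_union_le _ _).trans ?_
      apply add_le_add (Set.encard_image_le _ _)
      refine (Set.encard_union_le _ _).trans ?_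
      apply add_le_add (Set.encard_image_le _ _)
      rw [Set.encard_singleton]
    have h2 := ENat.toENNReal_mono h1
    simpa [hN] using h2
  have ht : 1 ≤ t := by
    obtain ⟨i, hi⟩ := hne'
    have h1 := hf i ⟨0, hm⟩
    have h2 : 0 < (f i ⟨0, hm⟩).support.card := by
      rw [Finset.card_pos, support_nonempty]
      exact hi _
    omega
  have hk : 1 ≤ k := by
    obtain ⟨i, _⟩ := hne
    exact Nat.one_le_iff_ne_zero.mpr (fun h => by subst h; exact i.elim0)
  have hofReal : ENNReal.ofReal (72 * (m : ℝ) ^ 2 * (t : ℝ) ^ 9) =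
      72 * (m : ℝ≥0∞) ^ 2 * (t : ℝ≥0∞) ^ 9 := by
    rw [ENNReal.ofReal_mul (by positivity), ENNReal.ofReal_mul (by norm_num),
      ENNReal.ofReal_pow (by positivity), ENNReal.ofReal_pow (by positivity),
      ENNReal.ofReal_natCast, ENNReal.ofReal_natCast]
    norm_num
  have hhalf : ∀ ε : ℝ, ε ≠ 0 → ∫⁻ c, N ε c ∂Measure.pi ν ≤
      ((m * t : ℕ) : ℝ≥0∞) + A * (B * (2 * ((k : ℝ≥0∞) * (k *
        (72 * (m : ℝ≥0∞) ^ 2 * (t : ℝ≥0∞) ^ 9))))) := by
    intro ε hε
    rw [← hofReal]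
    exact half hm hf hne' hA hB hε
  calc ∫⁻ c, ((Zs (fun i x => ∏ j, (f i j).eval x) c).encard : ℝ≥0∞) ∂Measure.pi ν
      ≤ ∫⁻ c, (N 1 c + (N (-1) c + 1)) ∂Measure.pi ν := lintegral_mono hle
    _ = ∫⁻ c, N 1 c ∂Measure.pi ν + (∫⁻ c, N (-1) c ∂Measure.pi ν + 1) := by
        rw [lintegral_add_left (hNm 1), lintegral_add_left (hNm (-1))]
        simp
    _ ≤ (((m * t : ℕ) : ℝ≥0∞) + A * (B * (2 * ((k : ℝ≥0∞) * (k *
          (72 * (m : ℝ≥0∞) ^ 2 * (t : ℝ≥0∞) ^ 9)))))) +
        ((((m * t : ℕ) : ℝ≥0∞) + A * (B * (2 * ((k : ℝ≥0∞) * (k *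
          (72 * (m : ℝ≥0∞) ^ 2 * (t : ℝ≥0∞) ^ 9)))))) + 1) :=
        add_le_add (hhalf 1 one_ne_zero)
          (add_le_add (hhalf (-1) (by norm_num)) le_rfl)
    _ = ((2 * m * t + 1 : ℕ) : ℝ≥0∞) + 288 * (A * B) * k ^ 2 * m ^ 2 * t ^ 9 := by
        push_cast
        ring
    _ ≤ ((288 * k ^ 2 * m ^ 2 * t ^ 9 : ℕ) : ℝ≥0∞) + 288 * (A * B) * k ^ 2 * m ^ 2 * t ^ 9 := by
        apply add_le_add _ le_rfl
        have h1 : 2 * m * t + 1 ≤ 288 * k ^ 2 * m ^ 2 * t ^ 9 := by
          have h2 : 1 ≤ k ^ 2 := Nat.one_le_pow _ _ hk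
          have h3 : m ≤ m ^ 2 := Nat.le_self_pow (by norm_num) m
          have h4 : t ≤ t ^ 9 := Nat.le_self_pow (by norm_num) t
          have h5 : m * t ≤ m ^ 2 * t ^ 9 := Nat.mul_le_mul h3 h4
          have h6 : 1 ≤ m * t := Nat.mul_pos hm ht
          have h7 : m ^ 2 * t ^ 9 ≤ k ^ 2 * (m ^ 2 * t ^ 9) := Nat.le_mul_of_pos_left _ h2
          nlinarith
        exact_mod_cast h1
    _ = 288 * (1 + A * B) * k ^ 2 * m ^ 2 * t ^ 9 := by
        push_cast
        ring

end Pool.Agent.Results.MP_97f157_lc.OuterAverage
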