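import Pool.Agent.H746R5.Lop.Main

set_option autoImplicit false

namespace Pool.Agent.Results.MP_97f157_lc.SeparatedRoots

open Polynomial Pool.Agent.H746R5.Lop

/-- **A quasi-polynomial upper bound in the separated regime of the real tau-conjecture.**
Expand `∑ i, ∏ j, f i j` formally into the terms `tcoeff f a * X ^ (∑ j, a j)`, one for each tuple
`a` of exponents. A term dominates at `x` if it exceeds in absolute value the sum of all other
terms (`Dominates f x a`). If among any `q + 1` distinct roots of one sign two are separated by a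
point where some term dominates, then `∑ i, ∏ j, f i j` has at most
`2 q (k t (2 k ^ 2) ^ ⌈log₂ m⌉ + 1) + 1` distinct real roots. -/
theorem result (k m t q : ℕ) (hk : 1 ≤ k) (ht : 1 ≤ t) (f : Fin k → Fin m → ℝ[X])
    (hf : ∀ i j, (f i j).support.card ≤ t)
    (hsep : ∀ U ⊆ (∑ i, ∏ j, f i j).roots.toFinset, ((∀ u ∈ U, 0 < u) ∨ (∀ u ∈ U, u < 0)) →
      q < U.card → ∃ u ∈ U, ∃ v ∈ U, ∃ (x : ℝ) (a : Fin m → ℕ),
        u < x ∧ x < v ∧ Dominates f x a) :
    (∑ i, ∏ j, f i j).roots.toFinset.card ≤
      2 * (q * (k * t * (2 * k ^ 2) ^ (Nat.clog 2 m) + 1)) + 1 :=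
  card_roots k m t q hk ht f hf hsep

end Pool.Agent.Results.MP_97f157_lc.SeparatedRoots
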