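import Pool.Agent.H746R4.Tau.Main

set_option autoImplicit false

namespace Pool.Agent.Results.MP_97f157_lc.SuperlinearRoots

open Polynomial

/-- Polynomially superlinear numbers of real roots for sums of products of two sparse
polynomials: `k = 192 s e ^ 3` products of a `2 e ^ 2`-sparse and a `4 s ^ 2 e`-sparse real
polynomial can have at least `64 s ^ 3 e ^ 5` distinct real roots. With `s = r` and `e = r ^ 2` this
is `k = 192 r ^ 7`, `t = 4 r ^ 4` and `64 r ^ 13` roots. -/
theorem result (s e : ℕ) (hs : 1 ≤ s) (he : 1 ≤ e) :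
    ∃ F : Fin (192 * s * e ^ 3) → Fin 2 → ℝ[X],
      (∀ i, (F i 0).support.card ≤ 2 * e ^ 2 ∧ (F i 1).support.card ≤ 4 * s ^ 2 * e) ∧
      64 * s ^ 3 * e ^ 5 ≤ (∑ i, ∏ j, F i j).roots.toFinset.card :=
  Pool.Agent.H746R4.Tau.family₂ s e hs he

end Pool.Agent.Results.MP_97f157_lc.SuperlinearRoots
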